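import Pool.Agent.Helper92.PV.St

/-! # PV module CLS: the number of projective classes modulo `P` -/

set_option autoImplicit false

open Finset

noncomputable section

namespace Pool.Agent.Helper92.PV

open Pool.Agent.Helper92.PW Pool.Agent.Helper92.PU

namespace CLS

variable {F : Type} [Field F] [DecidableEq F]

/-- the first nonzero coordinate -/
def piv (v : Fin 3 → F) : F := if v 0 ≠ 0 then v 0 else if v 1 ≠ 0 then v 1 else v 2

lemma piv_smul (c : F) (hc : c ≠ 0) (v : Fin 3 → F) : piv (c • v) = c * piv v := by
  unfold piv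
  simp only [Pi.smul_apply, smul_eq_mul, ne_eq, mul_eq_zero, hc, false_or]
  split_ifs <;> rfl

lemma piv_ne (v : Fin 3 → F) (hv : v ≠ 0) : piv v ≠ 0 := by
  unfold piv
  split_ifs with h0 h1
  · exact h0
  · exact h1
  · intro h2
    apply hv
    push Not at h0 h1
    funext i
    fin_cases i
    · exact h0
    · exact h1
    · exact h2

/-- normal form -/
def nf (v : Fin 3 → F) : Fin 3 → F := (piv v)⁻¹ • v

lemma piv_nf (v : Fin 3 → F) (hv : v ≠ 0) : piv (nf v) = 1 := by
  have h := piv_ne v hv
  unfold nf
  rw [piv_smul _ (inv_ne_zero h), inv_mul_cancel₀ h]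

end CLS

open CLS

theorem hCLS : StCLS := by
  intro P d G hP hd hG hs S hS
  have : Fact P.Prime := ⟨hP⟩
  set g : MvPolynomial (Fin 3) (ZMod P) := MvPolynomial.map (Int.castRingHom (ZMod P)) G with hg
  have hg0 : g ≠ 0 := by
    intro h
    obtain ⟨s, hs⟩ := hs
    apply hs
    have : g.coeff s = 0 := by rw [h]; simp
    rw [hg, MvPolynomial.coeff_map] at this
    exact (ZMod.intCast_zmod_eq_zero_iff_dvd _ P).1 (by simpa using this)
  have hgh : g.IsHomogeneous d := hG.map _
  set v : Pt → Fin 3 → ZMod P := fun p m => ((vec p m : ℤ) : ZMod P) with hv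
  have hv0 : ∀ p ∈ S, v p ≠ 0 := by
    intro p hp h
    obtain ⟨m, hm⟩ := (hS p hp).2
    apply hm
    have := congrFun h m
    exact (ZMod.intCast_zmod_eq_zero_iff_dvd _ P).1 (by simpa [hv] using this)
  have hvz : ∀ p ∈ S, MvPolynomial.eval (v p) g = 0 := by
    intro p hp
    have h1 := (hS p hp).1
    have h2 : MvPolynomial.eval (v p) g = ((vl G p : ℤ) : ZMod P) := by
      rw [hg, MvPolynomial.eval_map, vl]
      have := MvPolynomial.eval₂_comp_left (Int.castRingHom (ZMod P)) (RingHom.id ℤ) (vec p) G
      simp only [MvPolynomial.eval₂_id, RingHom.comp_id] at this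
      rw [show ((MvPolynomial.eval (vec p) G : ℤ) : ZMod P) = (Int.castRingHom (ZMod P)) (MvPolynomial.eval (vec p) G) from rfl]
      rw [this]
      rfl
    rw [h2, h1]; simp
  -- homogeneity
  have hsc : ∀ (c : ZMod P) (w : Fin 3 → ZMod P), MvPolynomial.eval (c • w) g = c ^ d * MvPolynomial.eval w g := by
    intro c w
    rw [MvPolynomial.eval_eq', MvPolynomial.eval_eq', Finset.mul_sum]
    refine Finset.sum_congr rfl (fun e he => ?_)
    have h1 := hgh (MvPolynomial.mem_support_iff.1 he)
    have h2 : ∑ i, e i = d := by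
      rw [← h1, Finsupp.weight_apply, Finsupp.sum_fintype _ _ (fun i => by simp)]
      simp
    rw [← h2, ← Finset.prod_pow_eq_pow_sum]
    simp_rw [Pi.smul_apply, smul_eq_mul, mul_pow]
    rw [Finset.prod_mul_distrib]
    ring
  set I : Finset (Fin 3 → ZMod P) := S.image (fun p => nf (v p)) with hI
  refine ⟨I, fun p => nf (v p), ?_, fun p hp => mem_image_of_mem _ hp, ?_⟩
  · set Z : Finset (Fin 3 → ZMod P) := (Fintype.piFinset fun _ : Fin 3 => (univ : Finset (ZMod P))).filter
      (fun w => MvPolynomial.eval w g = 0) with hZ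
    have hZc : Z.card ≤ d * P ^ 2 := by
      have h := MvPolynomial.schwartz_zippel_totalDegree hg0 (univ : Finset (ZMod P))
      rw [hgh.totalDegree hg0] at h
      have hPc : (univ : Finset (ZMod P)).card = P := by simp [ZMod.card]
      rw [hPc] at h
      have hPpos : (0 : ℚ≥0) < (P : ℚ≥0) := by exact_mod_cast hP.pos
      rw [div_le_div_iff₀ (by positivity) hPpos] at h
      have h' : Z.card * P ≤ d * P ^ 3 := by
        have : ((Z.card * P : ℕ) : ℚ≥0) ≤ ((d * P ^ 3 : ℕ) : ℚ≥0) := by
          push_cast
          exact h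
        exact_mod_cast this
      have : Z.card * P ≤ (d * P ^ 2) * P := by
        calc Z.card * P ≤ d * P ^ 3 := h'
          _ = (d * P ^ 2) * P := by ring
      exact Nat.le_of_mul_le_mul_right this hP.pos
    have hinj : (I ×ˢ (univ \ {0} : Finset (ZMod P))).card ≤ Z.card := by
      apply card_le_card_of_injOn (fun x => x.2 • x.1)
      · intro x hx
        simp only [coe_product, Set.mem_prod, mem_coe, mem_sdiff, mem_univ, mem_singleton, true_and] at hx
        obtain ⟨hx1, hx2⟩ := hx
        obtain ⟨p, hp, hpx⟩ := mem_image.1 hx1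
        simp only [hZ, coe_filter, Set.mem_ofPred_eq, Fintype.mem_piFinset, mem_univ, implies_true, true_and]
        rw [hsc, ← hpx, nf, hsc, hvz p hp]
        simp
      · intro x hx y hy hxy
        simp only [coe_product, Set.mem_prod, mem_coe, mem_sdiff, mem_univ, mem_singleton, true_and] at hx hy
        obtain ⟨p, hp, hpx⟩ := mem_image.1 hx.1
        obtain ⟨q, hq, hqy⟩ := mem_image.1 hy.1
        have h1 : piv x.1 = 1 := by rw [← hpx]; exact piv_nf _ (hv0 p hp)
        have h2 : piv y.1 = 1 := by rw [← hqy]; exact piv_nf _ (hv0 q hq)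
        have h3 := congrArg piv hxy
        simp only at h3
        rw [piv_smul _ hx.2, piv_smul _ hy.2, h1, h2, mul_one, mul_one] at h3
        simp only at hxy
        rw [← h3] at hxy
        have h4 : x.1 = y.1 := smul_right_injective _ hx.2 hxy
        exact Prod.ext h4 h3
    rw [card_product] at hinj
    have hc : (univ \ {0} : Finset (ZMod P)).card = P - 1 := by
      rw [card_sdiff_of_subset (subset_univ _)]; simp [ZMod.card]
    rw [hc] at hinj
    have h2 : P ≤ 2 * (P - 1) := by have := hP.two_le; omega
    have h3 : I.card * P ≤ (2 * d * P) * P := by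
      calc I.card * P ≤ I.card * (2 * (P - 1)) := Nat.mul_le_mul_left _ h2
        _ = 2 * (I.card * (P - 1)) := by ring
        _ ≤ 2 * (d * P ^ 2) := Nat.mul_le_mul_left _ (hinj.trans hZc)
        _ = (2 * d * P) * P := by ring
    exact Nat.le_of_mul_le_mul_right h3 hP.pos
  · intro p hp q hq hpq
    simp only [nf] at hpq
    have hp0 := piv_ne _ (hv0 p hp)
    have hq0 := piv_ne _ (hv0 q hq)
    set c := (piv (v p)) with hc
    set e := (piv (v q)) with he
    have hk : ∀ i j, v p i * v q j - v p j * v q i = 0 := by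
      intro i j
      have h1 : ∀ m, v p m = c * (e⁻¹ * v q m) := by
        intro m
        have := congrFun hpq m
        simp only [Pi.smul_apply, smul_eq_mul] at this
        rw [← this, mul_inv_cancel_left₀ hp0]
      rw [h1 i, h1 j]; ring
    have hd2 : ∀ i j, (P : ℤ) ∣ vec p i * vec q j - vec p j * vec q i := by
      intro i j
      apply (ZMod.intCast_zmod_eq_zero_iff_dvd _ P).1
      have := hk i j
      simp only [hv] at this
      push_cast
      exact this
    refine ⟨?_, ?_, ?_⟩
    · have := hd2 1 2
      simp only [vec, crs] at this ⊢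
      simpa using this
    · have := hd2 2 0
      simp only [vec, crs] at this ⊢
      simpa using this
    · have := hd2 0 1
      simp only [vec, crs] at this ⊢
      simpa using this

end Pool.Agent.Helper92.PV
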