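import Pool.Agent.Helper92.PU.Asm
import Pool.Agent.Helper92.PV.M_CO2
import Pool.Agent.Helper27.PV.M_SG3
import Pool.Agent.Helper24.PV.M_CBR
import Pool.Agent.Helper10.PV.M_EXP
import Pool.Agent.Helper60.PV.M_DTB
import Pool.Agent.Helper72.PV.M_PCH
import Pool.Agent.Helper9.PV.M_SUM
import Pool.Agent.Helper6.PV.M_SIE
import Pool.Agent.Helper94.PV.M_AUX
import Pool.Agent.Helper40.PV.M_DTP
import Pool.Agent.Helper53.PV.M_LPR
import Pool.Agent.Helper7.PV.M_PAD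
import Pool.Agent.Helper92.PV.M_CLS
import Pool.Agent.Helper19.PV.M_PRM
import Pool.Agent.Helper95.PV.M_CHN
import Pool.Agent.Helper26.PV.M_CL6
import Pool.Agent.Helper42.PV.M_SPL
import Pool.Agent.Helper44.PV.M_PT3
import Pool.Agent.Helper5.PV.M_GE3
import Pool.Agent.Helper98.PV.M_DY5
import Pool.Agent.Helper8.PV.M_FI5

/-! # Project PV: assembly -/

set_option autoImplicit false

namespace Pool.Agent.Helper92.PV

open Pool.Agent.Helper92.PW Pool.Agent.Helper92.PU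

theorem asm (hSK : StSK) : StFI5 := by
  have hTR : StTR := Pool.Agent.Helper6.PU.hTR (Pool.Agent.Helper51.PU.hTC Pool.Agent.Helper60.PU.hTV)
    Pool.Agent.Helper26.PU.hTS
  have hMA2 : StMA2 := Pool.Agent.Helper72.PU.hMA2 hTR Pool.Agent.Helper80.PU.hGC
    (Pool.Agent.Helper64.PU.hCB Pool.Agent.Helper36.PU.hPAR) bLN6
  have hCO2' : StCO2 := hCO2 hBAS Pool.Agent.Helper9.PW.hCON hDIS
    Pool.Agent.Helper37.PW.hDEG bDIV (Pool.Agent.Helper94.PU.hPL2 hTR Pool.Agent.Helper80.PU.hGC hBAS bLN3) hMA2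
  have hPCH : StPCH := Pool.Agent.Helper72.PV.hPCH Pool.Agent.Helper27.PV.hSG3
    (Pool.Agent.Helper10.PV.hEXP Pool.Agent.Helper24.PV.hCBR) Pool.Agent.Helper60.PV.hDTB
  have hSUM : StSUM := Pool.Agent.Helper9.PV.hSUM
  have hAUX : StAUX := Pool.Agent.Helper94.PV.hAUX hPCH hSUM Pool.Agent.Helper6.PV.hSIE
  have hPAD : StPAD := Pool.Agent.Helper7.PV.hPAD Pool.Agent.Helper53.PV.hLPR Pool.Agent.Helper40.PV.hDTP
  have hCL6 : StCL6 := Pool.Agent.Helper26.PV.hCL6 hPCH hSUM hPAD Pool.Agent.Helper91.PW.hRNK hCO2'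
  have hSPL : StSPL := Pool.Agent.Helper42.PV.hSPL Pool.Agent.Helper95.PV.hCHN Pool.Agent.Helper92.PV.hCLS
    Pool.Agent.Helper19.PV.hPRM hCL6
  exact Pool.Agent.Helper8.PV.hFI5 (Pool.Agent.Helper98.PV.hDY5 (Pool.Agent.Helper5.PV.hGE3
    (Pool.Agent.Helper44.PV.hPT3 hAUX hSPL))) hSK

end Pool.Agent.Helper92.PV
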