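import Pool.Agent.Helper92.PU.St

/-!
# Project PV (MP_ad0dc2_nt): exponent `17/20 + ε` for `x³ + y³ + z³ = k`

THEOREM.  For every integer `k` that is not a cube and every `ε > 0` there is `C` such that for all `Z ≥ 1` the equation
`x³ + y³ + z³ = k` has at most `C Z^(17/20 + ε)` integer solutions with `|z| ≤ Z` (`x, y` arbitrary).

PLAN.  As in project PU (`Pool.Agent.Helper92.PU.St`, exponent `9/10 + ε`), but with patches of length `B^(-a)`,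
`a > 3/4`.  (1) On such a patch all monomials `ξ^α η^β` are polynomials in two small quantities `t = ξ - ξ₀` (of size
`B^(-a)`) and `e = k/z³` (of size `B^(-3)`); the determinant method with all monomials of a large degree `D` shows that
all solutions of the patch lie on one cone `G = 0` of degree `D` (`StAUX`).  (2) Let `P` be a prime of size `B^(1/10)`.
The solutions on `G = 0` fall into `O(P)` projective classes modulo `P`; for six solutions of one class the `6 × 6`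
determinant of the quadratic monomials is divisible by `P^15` (`StPAD`) and of size `O(B^(3/2))`, so it vanishes.  So
the solutions of one class lie on a quadratic cone, and there are `O(B^ε)` of them by project PU (`StCO2`).  Total:
`B^(3/4) · B^(1/10)`.

A module proves `theorem hX (h1 : StA) ... : StX` in the file `Pool/Agent/<You>/PV/M_X.lean`, namespace
`Pool.Agent.<You>.PV`, where `StA, ...` are the statements it uses (listed in its doc).  If a statement is wrong as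
written, tell helper92 at once.
-/

set_option autoImplicit false
set_option linter.unusedVariables false

open Finset

noncomputable section

namespace Pool.Agent.Helper92.PV

open Pool.Agent.Helper92.PW Pool.Agent.Helper92.PU

/-! ## Definitions -/

/-- the coordinates of `p` as a vector -/
def vec (p : Pt) : Fin 3 → ℤ := ![p.1, p.2.1, p.2.2]

/-- `p` is a sorted primitive solution at height `B` -/
structure SP (k : ℤ) (B : ℝ) (p : Pt) : Prop where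
  sol : Fm p = k
  prm : Prm p
  xy : |(p.1 : ℝ)| ≤ |(p.2.1 : ℝ)|
  yz : |(p.2.1 : ℝ)| ≤ |(p.2.2 : ℝ)|
  z_gt : B / 2 < |(p.2.2 : ℝ)|
  z_le : |(p.2.2 : ℝ)| ≤ B

/-- the monomial `x^α y^β z^(D-α-β)`, `e = (α, β)` -/
def mn (D : ℕ) (e : ℕ × ℕ) (p : Pt) : ℤ := p.1 ^ e.1 * p.2.1 ^ e.2 * p.2.2 ^ (D - e.1 - e.2)

/-- the value of `G` at `p` -/
def vl (G : MvPolynomial (Fin 3) ℤ) (p : Pt) : ℤ := MvPolynomial.eval (vec p) G

/-- the value of the partial derivative `∂_b G` at `p` -/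
def grd (G : MvPolynomial (Fin 3) ℤ) (p : Pt) (b : Fin 3) : ℤ := vl (MvPolynomial.pderiv b G) p

/-- `P` divides all coordinates of the vector product, i.e. `p` and `q` are proportional modulo `P` -/
def Pro (P : ℕ) (p q : Pt) : Prop := (P : ℤ) ∣ (crs p q).1 ∧ (P : ℤ) ∣ (crs p q).2.1 ∧ (P : ℤ) ∣ (crs p q).2.2

/-! ## Part 1: the auxiliary cone of a patch -/

/-- **SG3** (uses nothing; about 50 lines; compare `Pool.Agent.Helper29.PU.M_SG2`).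
PROOF.  `z ≠ 0` as `|z| > B/2 > 0`.  Dividing `x³ + y³ + z³ = k` by `z³` gives the equation; `e = k/z³` satisfies
`|e| ≤ 8|k|/B³ ≤ 1/8`.  `|ξ| ≤ |η| ≤ 1`.  If `η ≥ 0`, then `ξ³ ≥ -η³`, so `e = ξ³ + η³ + 1 ≥ 1`, contradiction.  So
`η < 0`, `-1 ≤ η`.  `2 |η|³ ≥ |ξ³ + η³| = |e - 1| ≥ 7/8`, so `|η|³ ≥ 7/16 > 27/64` and `η ≤ -3/4`.  Finally
`1 + ξ³ = e + |η|³ ≥ 7/16 - 1/8 ≥ 1/4`. -/
def StSG3 : Prop := ∀ (k : ℤ) (B : ℝ), 1 ≤ B → 64 * |(k : ℝ)| ≤ B ^ 3 → ∀ p : Pt, SP k B p →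
  (-1 ≤ xi p ∧ xi p ≤ 1 ∧ 1 / 4 ≤ 1 + xi p ^ 3 ∧ -1 ≤ et p ∧ et p ≤ -(3 / 4)) ∧
  xi p ^ 3 + et p ^ 3 + 1 = (k : ℝ) / (p.2.2 : ℝ) ^ 3 ∧ |(k : ℝ) / (p.2.2 : ℝ) ^ 3| ≤ 8 * |(k : ℝ)| / B ^ 3

/-- **CBR** (uses nothing; about 90 lines).  Taylor polynomials of the cube root.
PROOF.  CLAIM: for `L ≥ 1` there is `P ∈ ℝ[X]` with `P(0) = 1` and `X^L ∣ P³ - (1 + X)`.  Induction: `L = 1`: `P = 1`.  Step:
`P³ - (1 + X) = X^L R`; `P' = P - (R(0)/3) X^L` satisfies `P'³ - (1 + X) = X^L (R - R(0) P²) + X^(2L) (...)`, the constant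
term of `R - R(0) P²` is `0` and `2L ≥ L + 1`.
Let `|R| ≤ K₁` on `[-1/2, 1/2]` (continuous function on a compact interval).  For `|X| ≤ 1/2`, `b ≥ 0`, `b³ = 1 + X`:
`b³ ≥ 1/2 > 27/64`, so `b ≥ 3/4`; with `q = P(X)`: `b² + b q + q² = (q + b/2)² + 3b²/4 ≥ 27/64`, so
`|b - q| = |b³ - q³|/(b² + b q + q²) ≤ (64/27) K₁ |X|^L`.  For `L = 0`: `P = 0`, `b ≤ 2`. -/
def StCBR : Prop := ∀ L : ℕ, ∃ (P : Polynomial ℝ) (K : ℝ), 1 ≤ K ∧ ∀ X b : ℝ, |X| ≤ 1 / 2 → 0 ≤ b → b ^ 3 = 1 + X →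
  |b - P.eval X| ≤ K * |X| ^ L

/-- **EXP** (uses `StCBR`; about 200 lines).  The monomials as polynomials in `t` and `e`, uniformly in `x₀` and `B`.
PROOF.  `A = 1 + x₀³ ∈ [1/4, 2]`, `σ = A^(1/3) ∈ [1/2, 2]`, `h = 3 x₀² t + 3 x₀ t² + t³ - e`, so `(-y)³ = A + h` and
`|h| ≤ 7|t| + |e| ≤ (7 + κ) B^(-a)` (`|t| ≤ 1`, `a ≤ 3`).  Let `L = ⌈T/a⌉₊`, `P, K₁` from `StCBR`.
Large `B`, `4 (7 + κ) B^(-a) ≤ 1/2`: `|h/A| ≤ 1/2`, `b = -y/σ`, `b³ = 1 + h/A`, so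
`|b - P(h/A)| ≤ K₁ (4 (7 + κ))^L B^(-aL) ≤ K₂ B^(-T)`; with `y' = -σ P(h/A)`: `|y - y'| ≤ 2 K₂ B^(-T)`, `|y| ≤ 1`, `|y'| ≤ K₃`,
`|(x₀+t)^α y^β - (x₀+t)^α y'^β| ≤ |y^β - y'^β| ≤ β K₃^β |y - y'|`.  And `(x₀ + t)^α y'^β` is a polynomial in `t` and `e`; its
degree and its coefficients are bounded independently of `x₀` and `B`: call a family of functions `f(x₀; t, e)`
`good` if there are `K`, `M` such that for each `x₀` there are `|c_ij| ≤ K` with `f(x₀; t, e) = Σ_{i,j<M} c_ij t^i e^j` for all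
real `t, e`.  Functions of `x₀` alone that are bounded on the admissible `x₀`, and `t`, `e`, are good; sums and products
of good families are good; so `h/A`, `P(h/A)`, `y'` and `(x₀+t)^α y'^β` are good (finitely many `α, β ≤ D`; take the
maxima of `K` and `M`, padding with zeros).
Small `B` (`B ≤ B₀`): `c = 0`, `|(x₀+t)^α y^β| ≤ 1 ≤ K B^(-T)` for `K ≥ B₀^T`. -/
def StEXP : Prop := ∀ (D : ℕ) (a T κ : ℝ), 0 < a → a ≤ 1 → 0 < T → 0 < κ → ∃ (K : ℝ) (M : ℕ), 1 ≤ K ∧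
  ∀ (B x0 : ℝ), 1 ≤ B → |x0| ≤ 1 → 1 / 4 ≤ 1 + x0 ^ 3 → ∃ c : ℕ → ℕ → ℕ → ℕ → ℝ, (∀ α β i j, |c α β i j| ≤ K) ∧
    ∀ t e y : ℝ, |t| ≤ B ^ (-a) → |e| ≤ κ * B ^ (-3 : ℝ) → |x0 + t| ≤ 1 → -1 ≤ y → y ≤ 0 →
      (x0 + t) ^ 3 + y ^ 3 + 1 = e → ∀ α ≤ D, ∀ β ≤ D,
      |(x0 + t) ^ α * y ^ β - ∑ i ∈ range M, ∑ j ∈ range M, c α β i j * t ^ i * e ^ j| ≤ K * B ^ (-T)

/-- **DTB** (uses nothing; about 120 lines; linear algebra).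
PROOF.  Let `R_ij = A_ij - Σ_l X_il c_lj`, `|R_ij| ≤ Kρ`.  The `i`-th row of `A` is `Σ_l X_il c_l + Σ_j R_ij e_j` (`c_l` = row `l`
of `c`, `e_j` = unit vector): a linear combination of the vectors `w_s`, `s ∈ Fin N ⊕ Fin n`, with coefficients
`Y_is`, `|Y_is| ≤ K m'_s`, `m'_s = m_l` for `s = inl l`, `m'_s = ρ` for `s = inr j`.  By multilinearity in the rows
(`MultilinearMap.map_sum`, `MultilinearMap.map_smul_univ` for `Matrix.detRowAlternating`)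
`det A = Σ_{f : Fin n → Fin N ⊕ Fin n} (Π_i Y_{i f(i)}) det(w_{f(i)})`, where the determinant is `0` if `f` is not injective.
For injective `f`: `|Π_i Y_{i f(i)}| ≤ K^n Π_i m'_{f(i)} = K^n ρ^n Π_i (m'_{f(i)}/ρ) ≤ K^n ρ^n Π_l max(1, m_l/ρ)` (the factors with
`f(i) = inr j` are `1`, the others are different factors of the product, and all factors of the product are `≥ 1`),
`|det(w_{f(i)})| ≤ n! K^n` (`K ≥ 1`).  `C = (N + n)^n n! K^(2n)`. -/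
def StDTB : Prop := ∀ (n N : ℕ) (K : ℝ), 1 ≤ K → ∃ C : ℝ, 0 < C ∧ ∀ (ρ : ℝ) (m : Fin N → ℝ)
  (A : Matrix (Fin n) (Fin n) ℝ) (X : Fin n → Fin N → ℝ) (c : Fin N → Fin n → ℝ), 0 < ρ → (∀ l, 0 ≤ m l) →
  (∀ i l, |X i l| ≤ K * m l) → (∀ l j, |c l j| ≤ K) → (∀ i j, |A i j - ∑ l, X i l * c l j| ≤ K * ρ) →
  |A.det| ≤ C * ρ ^ n * ∏ l, max 1 (m l / ρ)

/-- **PCH** (uses `StSG3`, `StEXP`, `StDTB`; about 150 lines).  The determinant of a patch.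
PROOF.  `n = 0` is trivial (`C ≥ 1`).  `κ = 8|k| + 1`, `K, M` from `StEXP`, `x₀ = ξ(p 0)`, `tᵢ = ξ(pᵢ) - x₀`, `eᵢ = k/zᵢ³`,
`|eᵢ| ≤ κ B^(-3)`, `yᵢ = η(pᵢ)`; the hypotheses of `StEXP` hold by `StSG3`.  `mn D (α, β) p = z^D ξ^α η^β` for `α + β ≤ D`, so
`det(mn) = Π_i zᵢ^D · det(ξᵢ^α ηᵢ^β)`, `|Π_i zᵢ^D| ≤ B^(nD)`.  `StDTB` with the index set `range M × range M ≃ Fin (M²)`,
`X_{i,(a',b')} = tᵢ^a' eᵢ^b'`, `m_(a',b') = B^(-a a' - 3 b')` (`|X| ≤ max(1, κ)^M m`), `ρ = B^(-T)`, constant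
`K' = max(K, κ^M, 1)`.  `ρ^n = B^(-nT)`, `max(1, m/ρ) = B^(max(0, T - a a' - 3 b'))` (`B ≥ 1`). -/
def StPCH : Prop := ∀ (k : ℤ) (D n : ℕ) (a T : ℝ), 0 < a → a ≤ 1 → 0 < T → ∃ (C : ℝ) (M : ℕ), 0 < C ∧ ∀ B : ℝ, 1 ≤ B →
  64 * |(k : ℝ)| ≤ B ^ 3 → ∀ E : Fin n → ℕ × ℕ, (∀ j, (E j).1 + (E j).2 ≤ D) → ∀ p : Fin n → Pt, (∀ i, SP k B (p i)) →
  (∀ i i', |xi (p i) - xi (p i')| ≤ B ^ (-a)) →
  |((Matrix.det (Matrix.of fun i j : Fin n => mn D (E j) (p i)) : ℤ) : ℝ)| ≤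
    C * B ^ ((n : ℝ) * D - n * T + ∑ i ∈ range M, ∑ j ∈ range M, max 0 (T - a * i - 3 * j))

/-- **SUM** (uses nothing; about 120 lines).  The exponents.
PROOF.  (1) For `s ≥ 0`: `Σ_{j<M} max(0, s - 3j) ≤ s + s²/6` (the terms `j ≥ 1` are `≤` the integral over `[j-1, j]`; or by
induction on `M` / with `m` = number of positive terms: the sum is `m s - 3 m (m-1)/2 ≤ s + s²/6`, a quadratic
inequality in `m`), in the same way `Σ_{i<M} max(0, T - a i) ≤ T + T²/(2a)`, and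
`Σ_{i<M} max(0, T - a i)² ≤ T² + T³/(3a)` (e.g. by comparing `g(i)² ≤ (G(i-1) - G(i))`, `G(i) = max(0, T - a i)³/(3a)`:
`u³ - v³ ≥ 3 a v²` for `u = v + a`, and similar for the other two sums).  With `s_i = max(0, T - a i)` the inner sum is
`≤ s_i + s_i²/6`.
(2) `15/4 - a i - 3j ≤ 15/4 - (3/4) i - 3j`; the positive terms for `a = 3/4` are `j = 0`: `15/4, 3, 9/4, 3/2, 3/4`
(`i = 0, ..., 4`), and `(i, j) = (0, 1)`: `3/4`; sum `12`.  (The sum over `range M` is `≤` the sum over `range (max M 6)`, and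
that equals the sum over `range 6`.)
(3) `T = 3D/2`, `2n = (D+1)(D+2)`: `nD - nT = -nD/2 ≤ -D³/4`.  By (1) the expression is
`≤ -δ D³ + (9/4)(1/(2a) + 1/6) D² + 3D/2 ≤ -δ D³ + 4 D²`, `δ = 1/4 - 3/(16a) > 0`, `D ≥ 1`.  Take `D ≥ 5/δ`. -/
def StSUM : Prop := (∀ (a T : ℝ) (M : ℕ), 0 < a → 0 ≤ T →
    ∑ i ∈ range M, ∑ j ∈ range M, max 0 (T - a * i - 3 * j) ≤
      T ^ 3 / (18 * a) + T ^ 2 * (1 / (2 * a) + 1 / 6) + T) ∧
  (∀ (a : ℝ) (M : ℕ), 3 / 4 ≤ a → ∑ i ∈ range M, ∑ j ∈ range M, max 0 (15 / 4 - a * i - 3 * j) ≤ 12) ∧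
  ∀ a : ℝ, 3 / 4 < a → ∃ D n : ℕ, 1 ≤ D ∧ 2 * n = (D + 1) * (D + 2) ∧ ∀ M : ℕ,
    (n : ℝ) * D - n * (3 / 2 * D) + ∑ i ∈ range M, ∑ j ∈ range M, max 0 (3 / 2 * D - a * i - 3 * j) ≤ -1

/-- **SIE** (uses nothing; about 110 lines; copy of `Pool.Agent.Helper91.PW.M_RNK` for general `n`).  Siegel's lemma.
PROOF.  The rational vectors `(v j p)_j`, `p ∈ T`, have rank `≤ n - 1` (`n` independent ones would have nonzero
determinant); choose a basis of their span among them (`exists_linearIndependent'`), at most `n - 1` vectors.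
`Int.Matrix.exists_ne_zero_int_vec_norm_le` gives `g ≠ 0` orthogonal to them with
`|g_j| ≤ (n M)^(m/(n-m)) ≤ (n M)^n`, `m ≤ n - 1` (if `m = 0` take `g = (1, ..., 1)`). -/
def StSIE : Prop := ∀ (n : ℕ) (M : ℝ) (T : Finset Pt) (v : Fin n → Pt → ℤ), 1 ≤ n → 1 ≤ M →
  (∀ p : Fin n → Pt, (∀ i, p i ∈ T) → Matrix.det (Matrix.of fun i j : Fin n => v j (p i)) = 0) →
  (∀ p ∈ T, ∀ j, |(v j p : ℝ)| ≤ M) →
  ∃ g : Fin n → ℤ, g ≠ 0 ∧ (∀ j, |(g j : ℝ)| ≤ (n * M) ^ n) ∧ ∀ p ∈ T, ∑ j, g j * v j p = 0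

/-- **AUX** (uses `StPCH`, `StSUM`, `StSIE`; about 150 lines).  The auxiliary cone.
PROOF.  `D, n` from part 3 of `StSUM`; `E : Fin n → ℕ × ℕ` enumerates the pairs with `α + β ≤ D` injectively (their number
is `(D+1)(D+2)/2 = n`; e.g. an equivalence of `Fin n` with a subtype, or with `Σ_{α ≤ D} Fin (D - α + 1)`; an injection of
`Fin n` is enough).  `StPCH` with `T = 3D/2`: the determinants are `≤ C B^(-1) < 1` for `B > C`, so they are `0` (also assume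
`64|k| ≤ B³`).  `StSIE` with `v j p = mn D (E j) p`, `M = B^D` (`|x|, |y|, |z| ≤ B`): `g`.  `G = Σ_j g_j X₀^α X₁^β X₂^(D-α-β)`
(`MvPolynomial.monomial`), `vl G p = Σ_j g_j mn D (E j) p = 0`; `G ≠ 0` as the monomials are different; the coefficients are
`0` or `g_j`, `|g_j| ≤ (n B^D)^n ≤ B^c` for `B ≥ max(2, n)`, `c = n (D + 1)`. -/
def StAUX : Prop := ∀ (k : ℤ) (a : ℝ), 3 / 4 < a → a ≤ 1 → ∃ (D : ℕ) (c B0 : ℝ), 0 < c ∧ 1 ≤ B0 ∧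
  ∀ (B : ℝ) (S : Finset Pt), B0 ≤ B → (∀ p ∈ S, SP k B p) → (∀ p ∈ S, ∀ q ∈ S, |xi p - xi q| ≤ B ^ (-a)) →
  ∃ G : MvPolynomial (Fin 3) ℤ, G ≠ 0 ∧ G.IsHomogeneous D ∧ (∀ s, |((G.coeff s : ℤ) : ℝ)| ≤ B ^ c) ∧ ∀ p ∈ S, vl G p = 0

/-! ## Part 2: classes modulo a prime -/

/-- **DTP** (uses nothing; about 90 lines; linear algebra).
PROOF.  `A_ij = Σ_l X_il c_lj + P⁶ R_ij`.  The `i`-th row is `Σ_l X_il c_l + P⁶ R_i`.  By multilinearity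
`det A = Σ_f ± ...`, `f : Fin 6 → Option (Fin 6)` (`f(i) = some l`: row `c_l` with factor `X_il`; `f(i) = none`: row `R_i`
with factor `P⁶`).  If some value `some l` is taken twice the determinant is `0`.  Otherwise the term is divisible by
`P` to the power `Σ_{i : f(i) = some l} l + 6 · #{i : f(i) = none} ≥ 0 + 1 + 2 + 3 + 4 + 5 = 15` (the values `l` are
different, and each missing one is replaced by a `6`). -/
def StDTP : Prop := ∀ (P : ℤ) (A : Matrix (Fin 6) (Fin 6) ℤ) (X c : Fin 6 → Fin 6 → ℤ),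
  (∀ i l : Fin 6, P ^ (l : ℕ) ∣ X i l) → (∀ i j, P ^ 6 ∣ A i j - ∑ l, X i l * c l j) → P ^ 15 ∣ A.det

/-- **LPR** (uses nothing; about 220 lines).  Local parametrization of `G = 0` modulo `P⁶` (Hensel).
PROOF.  Write `p(m) = vec p m`.  Choose `c` with `P ∤ p₁(c)`.  By Euler's identity
(`MvPolynomial.IsHomogeneous.sum_X_mul_pderiv`) `Σ_m p₁(m) ∂_m G(p₁) = d G(p₁) = 0`, so there is `b ≠ c` with `P ∤ ∂_b G(p₁)`
(otherwise `P ∣ p₁(c) ∂_c G(p₁)`, so `P` divides all `∂_m G(p₁)`).  Let `a` be the third index.  For every `p` as in the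
statement `p₁(c) p(m) ≡ p₁(m) p(c)` for all `m`, so `P ∤ p(c)` (otherwise `P ∣ p(m)` for all `m`).  Let `w(p)` be an integer with
`w(p) p(c) ≡ 1 (mod P⁶)`, `X = w(p) p(a)`, `Y = w(p) p(b)`, and `x₁, y₁` these numbers for `p₁`.  Then `X ≡ x₁`, `Y ≡ y₁ (mod P)`
(`w(p) p(a) - w(p₁) p₁(a) ≡ w(p) w(p₁) (p(a) p₁(c) - p₁(a) p(c)) ≡ 0`), and `s = X - x₁`.
`g(s, Y) := G` at the vector with coordinates `1` (index `c`), `x₁ + s` (index `a`), `Y` (index `b`): a polynomial in `s, Y`.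
`g(s, Y) ≡ G(w(p) p) = w(p)^d G(p) = 0 (mod P⁶)` for `p` as above, and `g_Y(0, y₁) ≡ w(p₁)^(d-1) ∂_b G(p₁)` is not `≡ 0 (mod P)`.
Let `u` be an integer with `u g_Y(0, y₁) ≡ 1 (mod P)`, and define polynomials `φ_0 = y₁`, `φ_(m+1)(s) = φ_m(s) - u g(s, φ_m(s))` in
`ℤ[s]`.  CLAIM: if `P ∣ s`, `P ∣ Y - y₁`, `P⁶ ∣ g(s, Y)`, then `P^(m+1) ∣ Y - φ_m(s)` for `m ≤ 5`.  Induction: `m = 0` clear; step
(`m + 1 ≤ 5`): `Y = φ_m(s) + δ`, `P^(m+1) ∣ δ`, `g(s, Y) = g(s, φ_m(s)) + δ g_Y(s, φ_m(s)) + δ² (...)` (`Polynomial.binomExpansion`),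
`g_Y(s, φ_m(s)) ≡ g_Y(0, y₁) (mod P)` (all `φ_m(s) ≡ y₁ (mod P)`), so modulo `P^(m+2)`: `g(s, φ_m(s)) ≡ -δ g_Y(0, y₁)`,
`u g(s, φ_m(s)) ≡ -δ`, `φ_(m+1)(s) ≡ φ_m(s) + δ = Y`.
`ψ_c = 1`, `ψ_a = x₁ + s`, `ψ_b = φ_5`; `p(m) ≡ p(c) w(p) p(m) ≡ p(c) ψ_m(s) (mod P⁶)`. -/
def StLPR : Prop := ∀ (P d : ℕ) (G : MvPolynomial (Fin 3) ℤ) (p1 : Pt), P.Prime → G.IsHomogeneous d → vl G p1 = 0 →
  (∃ b, ¬ (P : ℤ) ∣ grd G p1 b) → (∃ m, ¬ (P : ℤ) ∣ vec p1 m) →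
  ∃ (c : Fin 3) (ψ : Fin 3 → Polynomial ℤ), ∀ p : Pt, vl G p = 0 → Pro P p1 p → (∃ m, ¬ (P : ℤ) ∣ vec p m) →
    ∃ s : ℤ, (P : ℤ) ∣ s ∧ ∀ m, (P : ℤ) ^ 6 ∣ vec p m - vec p c * (ψ m).eval s

/-- **PAD** (uses `StLPR`, `StDTP`; about 90 lines).  Divisibility of the determinant.
PROOF.  `StLPR` with `p₁ = p 0`: `c`, `ψ`, and `sᵢ` for every `i`.  The `j`-th entry of `ver (p i)` is a product of two
coordinates `m, m'` (depending on `j`), so it is `≡ p_i(c)² (ψ_m ψ_m')(sᵢ) (mod P⁶)`.  Write `ψ_m ψ_m' = Σ_l c_lj s^l`;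
`X_il = p_i(c)² sᵢ^l` (`l < 6`), and the terms with `l ≥ 6` are divisible by `P⁶`.  `StDTP`. -/
def StPAD : Prop := ∀ (P d : ℕ) (G : MvPolynomial (Fin 3) ℤ) (p : Fin 6 → Pt), P.Prime → G.IsHomogeneous d →
  (∀ i, vl G (p i) = 0) → (∃ b, ¬ (P : ℤ) ∣ grd G (p 0) b) → (∀ i, ∃ m, ¬ (P : ℤ) ∣ vec (p i) m) →
  (∀ i, Pro P (p 0) (p i)) → (P : ℤ) ^ 15 ∣ Matrix.det (Matrix.of fun i j : Fin 6 => ver (p i) j)

/-- **CLS** (uses nothing; about 150 lines).  The number of classes.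
PROOF.  `F = ZMod P`, `g` = image of `G` in `F[X₀, X₁, X₂]`, `g ≠ 0`, homogeneous of degree `d`.  By Schwartz-Zippel
(`MvPolynomial.schwartz_zippel_totalDegree` with `S = univ`) `g` has `≤ d P²` zeros in `F³`.  For `p ∈ S` let `v` be the
image of `vec p` in `F³`, `v ≠ 0`, `c` its first index with `v(c) ≠ 0`, `f(p) = v(c)⁻¹ v`.  It is a zero of `g` (homogeneity)
whose first nonzero coordinate is `1`.  Let `I` be the image of `S`.  `(v, λ) ↦ λ v` is injective on `I × (F \ {0})` (the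
first nonzero coordinate of `λ v` is `λ`) with values in the zeros of `g`, so `card I · (P - 1) ≤ d P²` and `card I ≤ 2 d P`.
If `f(p) = f(q)`, then `vec p` and `vec q` are proportional modulo `P`, so `Pro P p q`. -/
def StCLS : Prop := ∀ (P d : ℕ) (G : MvPolynomial (Fin 3) ℤ), P.Prime → 1 ≤ d → G.IsHomogeneous d →
  (∃ s, ¬ (P : ℤ) ∣ G.coeff s) → ∀ S : Finset Pt, (∀ p ∈ S, vl G p = 0 ∧ ∃ m, ¬ (P : ℤ) ∣ vec p m) →
  ∃ (I : Finset (Fin 3 → ZMod P)) (f : Pt → Fin 3 → ZMod P), I.card ≤ 2 * d * P ∧ (∀ p ∈ S, f p ∈ I) ∧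
    ∀ p ∈ S, ∀ q ∈ S, f p = f q → Pro P p q

/-- **PRM** (uses nothing; about 40 lines).  Primes.
PROOF.  `n = ⌈Y⌉₊ ≤ 2Y`.  Bertrand (`Nat.exists_prime_lt_and_le_two_mul`): a prime `P_i` with `2^i n < P_i ≤ 2^(i+1) n` for
`i < r`. -/
def StPRM : Prop := ∀ (r : ℕ) (Y : ℝ), 1 ≤ Y → ∃ P : Fin r → ℕ, Function.Injective P ∧
  ∀ i, (P i).Prime ∧ Y < P i ∧ (P i : ℝ) ≤ 2 ^ (r + 1) * Y

/-- **CHN** (uses nothing; about 150 lines).  The chain of derivatives.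
PROOF.  `H_0 = G`, `H_(l+1) = ∂_(b_l) H_l ≠ 0` for `l < D` (a nonzero homogeneous polynomial of degree `≥ 1` over `ℤ` has a nonzero
partial derivative, by Euler's identity `MvPolynomial.IsHomogeneous.sum_X_mul_pderiv`); `H_l` is homogeneous of degree
`D - l`, `H_D` is a nonzero constant.  If `vl G p = 0`, let `l` be the largest index `≤ D` with `vl (H_l) p = 0`; `l < D`, and
`grd (H_l) p (b_l) = vl (H_(l+1)) p ≠ 0`.  BOUND: a partial derivative of a polynomial of degree `≤ D` with coefficients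
`≤ A` has coefficients `≤ D A`; so `∂_b H_l` has coefficients `≤ D^D A` (for `l < D`), it has at most `(D+1)³` monomials (exponents
`≤ D`), each with value `≤ B^D` at `p` (its degree is `≤ D`, `B ≥ 1`).  `c = D^D (D+1)³ + 1`. -/
def StCHN : Prop := ∀ D : ℕ, ∃ c : ℝ, 0 < c ∧ ∀ G : MvPolynomial (Fin 3) ℤ, G ≠ 0 → G.IsHomogeneous D →
  ∃ H : ℕ → MvPolynomial (Fin 3) ℤ, (∀ l < D, (H l).IsHomogeneous (D - l)) ∧
    (∀ A B : ℝ, 0 ≤ A → 1 ≤ B → (∀ s, |((G.coeff s : ℤ) : ℝ)| ≤ A) → ∀ l < D, ∀ p : Pt, Bd B p → ∀ b,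
      |(grd (H l) p b : ℝ)| ≤ c * A * B ^ D) ∧
    ∀ p : Pt, vl G p = 0 → ∃ l < D, vl (H l) p = 0 ∧ ∃ b, grd (H l) p b ≠ 0

/-- **CO2** (uses `StBAS`, `StCON`, `StDIS`, `StDEG` (of PW), `StDIV`, `StPL2`, `StMA2` (of PU); taken by helper92).  Few
solutions on a quadratic cone.
PROOF.  `Pool.Agent.Helper92.PU.M_PA2` after the construction of `Q`. -/
def StCO2 : Prop := ∀ (k : ℤ) (ε : ℝ), NC k → 0 < ε → ∃ C : ℝ, 0 < C ∧ ∀ (B : ℝ) (Q : Fin 6 → ℤ) (S : Finset Pt), 1 ≤ B →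
  Q ≠ 0 → (∀ j, |(Q j : ℝ)| ≤ (6 * B ^ 2) ^ 5) → (∀ p ∈ S, Fm p = k ∧ Prm p ∧ Bd B p ∧ Qf Q p = 0) →
  (S.card : ℝ) ≤ C * B ^ ε

/-- **CL6** (uses `StPCH`, `StSUM` (part 2), `StPAD`, `StRNK` (of PW), `StCO2`; about 110 lines).  The solutions of one class.
PROOF.  `C₀, M` from `StPCH` with `D = 2`, `n = 6`, `a = 3/4`, `T = 15/4`, used with
`E = ![(2,0), (1,1), (0,2), (1,0), (0,1), (0,0)]`, so `mn 2 (E j) p = ver p j`; the exponent is `12 - 45/2 + Σ ≤ 3/2` by part 2 of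
`StSUM`.  `C₁ ≥ 1` with `C₁^15 > C₀`.  For six points of `S` (repetitions allowed) the determinant of the `ver` is divisible
by `P^15` (`StPAD`; `∃ m, ¬ P ∣ vec (p i) m` as `p i` is primitive and `P` is not a unit) and `≤ C₀ B^(3/2)` in absolute
value, but `P^15 ≥ C₁^15 B^(3/2) > C₀ B^(3/2)`, so it is `0`.  `StRNK` with `M = B` (`|ver p j| ≤ B²`) gives `Q`, and `StCO2`. -/
def StCL6 : Prop := ∀ (k : ℤ) (ε : ℝ), NC k → 0 < ε → ∃ C1 C : ℝ, 1 ≤ C1 ∧ 0 < C ∧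
  ∀ (B : ℝ) (P d : ℕ) (G : MvPolynomial (Fin 3) ℤ) (S : Finset Pt), 1 ≤ B → 64 * |(k : ℝ)| ≤ B ^ 3 → P.Prime →
  C1 * B ^ (1 / 10 : ℝ) ≤ P → G.IsHomogeneous d → (∀ p ∈ S, SP k B p ∧ vl G p = 0 ∧ ∃ b, ¬ (P : ℤ) ∣ grd G p b) →
  (∀ p ∈ S, ∀ q ∈ S, |xi p - xi q| ≤ B ^ (-(3 / 4) : ℝ) ∧ Pro P p q) → (S.card : ℝ) ≤ C * B ^ ε

/-- **SPL** (uses `StCHN`, `StCLS`, `StPRM`, `StCL6`; about 200 lines).  The solutions of a patch on the auxiliary cone.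
PROOF.  `C₁, C` from `StCL6`; `C₂ = max(C₁, 2)`, `Y = C₂ B^(1/10)`; `H_l` from `StCHN`, `|grd (H_l) p b| ≤ c' B^(c+D)`.  Let `r` be an
integer `≥ 10 (c + D)` with `2^r > c'`: `Y^r ≥ 2^r B^(r/10) > c' B^(c+D)`.  Primes `P_i`, `i < r`, from `StPRM` for `Y`.  For `p ∈ S` choose
`l < D` with `vl (H_l) p = 0`, `N = grd (H_l) p b ≠ 0`; some `P_i` does not divide `N` (otherwise the product of the `r`
different primes, which is `> Y^r`, divides `N ≠ 0`, but `|N| < Y^r`; for `r = 0` there is nothing to do as `|N| < 1` is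
impossible).  So `S` is the union of the sets `S_(l,i)` of the `p ∈ S` with `vl (H_l) p = 0` and `∃ b, ¬ P_i ∣ grd (H_l) p b`
(`l < D`, `i < r`).  If `S_(l,i)` is not empty, not all coefficients of `H_l` are divisible by `P_i`; `StCLS` (degree
`D - l ≥ 1`) gives a label with `≤ 2 D P_i ≤ 2 D 2^(r+1) C₂ B^(1/10)` values, and every set of points with one label has
`≤ C B^ε` elements by `StCL6`.  Sum: `D · r · 2 D 2^(r+1) C₂ B^(1/10) · C B^ε`. -/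
def StSPL : Prop := ∀ (k : ℤ) (D : ℕ) (c ε : ℝ), NC k → 0 < c → 0 < ε → ∃ C : ℝ, 0 < C ∧
  ∀ (B : ℝ) (S : Finset Pt) (G : MvPolynomial (Fin 3) ℤ), 1 ≤ B → 64 * |(k : ℝ)| ≤ B ^ 3 → (∀ p ∈ S, SP k B p) →
  (∀ p ∈ S, ∀ q ∈ S, |xi p - xi q| ≤ B ^ (-(3 / 4) : ℝ)) → G ≠ 0 → G.IsHomogeneous D →
  (∀ s, |((G.coeff s : ℤ) : ℝ)| ≤ B ^ c) → (∀ p ∈ S, vl G p = 0) → (S.card : ℝ) ≤ C * B ^ (1 / 10 + ε : ℝ)

/-- **PT3** (uses `StAUX`, `StSPL`; about 70 lines).  The bound for a patch.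
PROOF.  `D, c, B₀` from `StAUX`, `B₁ = max(B₀, 64|k| + 1)`.  For `B ≥ B₁` `StAUX` and `StSPL` (`B^(-a) ≤ B^(-3/4)`).  For `B < B₁` the
points of `S` have integral coordinates in `[-B₁, B₁]`: `card S ≤ (2B₁ + 1)³`. -/
def StPT3 : Prop := ∀ (k : ℤ) (a ε : ℝ), NC k → 3 / 4 < a → a ≤ 1 → 0 < ε → ∃ C : ℝ, 0 < C ∧
  ∀ (B : ℝ) (S : Finset Pt), 1 ≤ B → (∀ p ∈ S, SP k B p) → (∀ p ∈ S, ∀ q ∈ S, |xi p - xi q| ≤ B ^ (-a)) →
  (S.card : ℝ) ≤ C * B ^ (1 / 10 + ε : ℝ)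

/-! ## Part 3: counting -/

/-- **GE3** (uses `StPT3`; about 120 lines; compare `Pool.Agent.Helper36.PU.M_GE2`).  Sorted primitive solutions with
smallest coordinate `≤ X`.
PROOF.  `ε₁ = min(ε/2, 1/4)`, `a = 3/4 + ε₁`.  Partition by `j = ⌊ξ(p) B^a⌋ ∈ ℤ`; `|ξ(p)| ≤ X/(B/2)`, so there are at most
`4 X B^(a-1) + 2 ≤ 4 (X B^(-1/4) + 1) B^(ε₁)` classes, in each `|ξ - ξ'| ≤ B^(-a)`.  `StPT3` with `ε/2`: each class has
`≤ C B^(1/10+ε/2)` points. -/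
def StGE3 : Prop := ∀ (k : ℤ) (ε : ℝ), NC k → 0 < ε → ∃ C : ℝ, 0 < C ∧ ∀ B X : ℝ, 1 ≤ B → 0 ≤ X →
  ∀ S : Finset Pt, (∀ p ∈ S, SP k B p ∧ |(p.1 : ℝ)| ≤ X) →
  (S.card : ℝ) ≤ C * (X * B ^ (-(1 / 4) : ℝ) + 1) * B ^ (1 / 10 + ε : ℝ)

/-- **DY5** (uses `StGE3`; about 150 lines; copy of `Pool.Agent.Helper41.PU.M_DY4`).  All solutions in a dyadic range
with smallest coordinate `≤ X`.
PROOF.  For `p ∈ T` let `d = gcd(x, y, z) ≥ 1`; `d³ ∣ k`, `k ≠ 0`, so `d ≤ |k|`; `p = d p'`, `p'` primitive, `Fm p' = k/d³`, not a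
cube.  For fixed `d` with `d³ ∣ k` and a fixed permutation sorting the absolute values (six of them) the permuted points
`p'` satisfy the hypothesis of `StGE3` for `k/d³`, `B/d` (`≥ 1` as `p' ≠ 0`) and `X` (the smallest coordinate is `≤ X/d ≤ X`).
`X (B/d)^(-1/4) + 1 ≤ d (X B^(-1/4) + 1)`, `(B/d)^(1/10+ε) ≤ B^(1/10+ε)`.  Sum over `d` and the permutations. -/
def StDY5 : Prop := ∀ (k : ℤ) (ε : ℝ), NC k → 0 < ε → ∃ C : ℝ, 0 < C ∧ ∀ B X : ℝ, 1 ≤ B → 0 ≤ X →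
  ∀ T : Finset Pt, (∀ p ∈ T, Fm p = k ∧ B / 2 < max |(p.1 : ℝ)| (max |(p.2.1 : ℝ)| |(p.2.2 : ℝ)|) ∧
    max |(p.1 : ℝ)| (max |(p.2.1 : ℝ)| |(p.2.2 : ℝ)|) ≤ B ∧ |(p.2.2 : ℝ)| ≤ X) →
  (T.card : ℝ) ≤ C * (X * B ^ (-(1 / 4) : ℝ) + 1) * B ^ (1 / 10 + ε : ℝ)

/-- **FI5** (uses `StDY5`, `StSK`; about 200 lines; copy of `Pool.Agent.Helper36.PU.M_FI3`).  The theorem.
PROOF.  We may assume `ε ≤ 1/100`, `Z ≥ 2` (for `1 ≤ Z < 2` use the bound for `Z = 2`).  `Z₁ = ⌈Z⌉₊`,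
`M = ⌈Z^(23/20)⌉₊ ≥ Z₁`.  Let `T` be a finite set of solutions with `|z| ≤ Z`.
(a) Those with `max(|x|, |y|) ≥ M`: `StSK`: `≤ C Z₁²/M log Z₁ ≤ C (2Z)²/Z^(23/20) log(2Z) ≤ C' Z^(17/20+ε)`.
(b) The others have height `≤ max(M, Z) ≤ 2 Z^(23/20)`.  For `B = 2^i` (`i ≥ 0`) let `T_i` be those with height in
`(2^i/2, 2^i]`; the height is an integer `≥ 1` (`k ≠ 0`), so these `T_i` with `2^i ≤ 4 Z^(23/20)` cover; their number is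
`≤ log₂(4 Z^(23/20)) + 1 ≤ C Z^(ε/8)`.  `StDY5` with `ε/8` and `X = min(Z, 2^i)` (`|z| ≤ Z` and `|z| ≤ 2^i`):
`X B^(-1/4) B^(1/10) = X B^(-3/20) ≤ Z^(17/20)` (for `B ≤ Z` it is `B^(17/20)`, for `B > Z` it is `Z B^(-3/20)`),
`B^(1/10) ≤ 2 Z^(23/200) ≤ 2 Z^(17/20)`, `B^(ε/8) ≤ 4 Z^(ε/4)`.  So each `T_i` has `≤ C Z^(17/20 + ε/4)` elements, the sum is
`≤ C Z^(17/20+ε)`.
Every finite subset of the solution set has cardinality `≤ C Z^(17/20+ε)`, hence the set is finite and the bound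
holds for it. -/
def StFI5 : Prop := ∀ k : ℤ, (∀ m : ℤ, m ^ 3 ≠ k) → ∀ ε : ℝ, 0 < ε → ∃ C : ℝ, ∀ Z : ℝ, 1 ≤ Z →
  {p : ℤ × ℤ × ℤ | p.1 ^ 3 + p.2.1 ^ 3 + p.2.2 ^ 3 = k ∧ |(p.2.2 : ℝ)| ≤ Z}.Finite ∧
  (({p : ℤ × ℤ × ℤ | p.1 ^ 3 + p.2.1 ^ 3 + p.2.2 ^ 3 = k ∧ |(p.2.2 : ℝ)| ≤ Z}.ncard : ℕ) : ℝ) ≤
    C * Z ^ (17 / 20 + ε : ℝ)

end Pool.Agent.Helper92.PV
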